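import Pool.Agent.H66.ZK.Stm2

/-!
# DGN: from the affine surface to the projective one (project ZK, helper37)
-/

set_option autoImplicit false

open Pool.Agent.Y720.MZ Pool.Agent.Q35.TT Pool.Agent.Q149.TT Pool.Agent.Q35.ZC Pool.Agent.H66.TK
open Filter Topology

namespace Pool.Agent.H66.ZK

/-- the index of the coordinate `x` which is `1` in the chart -/
def li (e : Bool) : Fin 5 := if e then 2 else 1
/-- the index of the other coordinate `x` -/
def lj (e : Bool) : Fin 5 := if e then 1 else 2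
/-- the index of the coordinate `y` which is `1` in the chart -/
def mi (e : Bool) : Fin 5 := if e then 4 else 3
/-- the index of the other coordinate `y` -/
def mj (e : Bool) : Fin 5 := if e then 3 else 4

/-- the affine coordinates -/
noncomputable def gg {E : Type} [Field E] (e₁ e₂ : Bool) (S : Fin 5 → E) : E × E × E :=
  (S 0 / (S (li e₁) * S (mi e₂)), S (lj e₁) / S (li e₁), S (mj e₂) / S (mi e₂))

theorem scale_gg {E : Type} [Field E] (e₁ e₂ : Bool) {S : Fin 5 → E} (hl : S (li e₁) ≠ 0)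
    (hm : S (mi e₂) ≠ 0) : scale (S (li e₁)) (S (mi e₂)) (p5 e₁ e₂ (gg e₁ e₂ S).1
      ![1, (gg e₁ e₂ S).2.1] ![1, (gg e₁ e₂ S).2.2]) = S := by
  have h0 : S (li e₁) * S (mi e₂) * (S 0 / (S (li e₁) * S (mi e₂))) = S 0 :=
    mul_div_cancel₀ _ (mul_ne_zero hl hm)
  have h1 : S (li e₁) * (S (lj e₁) / S (li e₁)) = S (lj e₁) := mul_div_cancel₀ _ hl
  have h2 : S (mi e₂) * (S (mj e₂) / S (mi e₂)) = S (mj e₂) := mul_div_cancel₀ _ hm
  cases e₁ <;> cases e₂ <;>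
  · funext i
    fin_cases i
    · exact h0
    all_goals first
      | exact mul_one _
      | exact h1
      | exact h2

theorem gg_scale {E : Type} [Field E] (e₁ e₂ : Bool) (w t r : E) {l m : E} (hl : l ≠ 0)
    (hm : m ≠ 0) : (scale l m (p5 e₁ e₂ w ![1, t] ![1, r])) (li e₁) = l ∧
      (scale l m (p5 e₁ e₂ w ![1, t] ![1, r])) (mi e₂) = m ∧
      gg e₁ e₂ (scale l m (p5 e₁ e₂ w ![1, t] ![1, r])) = (w, t, r) := by
  have h1 : (scale l m (p5 e₁ e₂ w ![1, t] ![1, r])) (li e₁) = l := by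
    cases e₁ <;> exact mul_one _
  have h2 : (scale l m (p5 e₁ e₂ w ![1, t] ![1, r])) (mi e₂) = m := by
    cases e₂ <;> exact mul_one _
  have h3 : (scale l m (p5 e₁ e₂ w ![1, t] ![1, r])) (lj e₁) = l * t := by
    cases e₁ <;> rfl
  have h4 : (scale l m (p5 e₁ e₂ w ![1, t] ![1, r])) (mj e₂) = m * r := by
    cases e₂ <;> rfl
  refine ⟨h1, h2, ?_⟩
  unfold gg
  rw [h1, h2, h3, h4]
  refine Prod.ext ?_ (Prod.ext ?_ ?_)
  · exact mul_div_cancel_left₀ w (mul_ne_zero hl hm)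
  · exact mul_div_cancel_left₀ t hl
  · exact mul_div_cancel_left₀ r hm

theorem p5_map {K E : Type} [Field K] [Field E] (τ : K →+* E) (e₁ e₂ : Bool) (w t r : K) :
    (fun j => τ (p5 e₁ e₂ w ![1, t] ![1, r] j)) = p5 e₁ e₂ (τ w) ![1, τ t] ![1, τ r] := by
  cases e₁ <;> cases e₂ <;>
  · funext j
    fin_cases j <;> simp [p5, Pool.Agent.H66.TK.sw]

theorem scale_map {K E : Type} [Field K] [Field E] (τ : K →+* E) (l m : K) (p : Fin 5 → K) :
    (fun j => τ (scale l m p j)) = scale (τ l) (τ m) (fun j => τ (p j)) := by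
  funext j
  fin_cases j <;> simp [scale]

theorem F_eqn {K : Type} [Field K] (a : Fin 3 → Fin 3 → K) (b : Fin 4 → Fin 4 → K) :
    F a b = eqn a b := by
  simp only [F, eqn, FF, cub, ax, bx, q2, q3, Fin.sum_univ_succ, Fin.sum_univ_zero]
  simp
  ring

theorem eval₂_F_scale {K E : Type} [Field K] [Field E] (τ : K →+* E) (a : Fin 3 → Fin 3 → K)
    (b : Fin 4 → Fin 4 → K) (e₁ e₂ : Bool) (l m w : E) (x y : Fin 2 → E) :
    MvPolynomial.eval₂ τ (scale l m (p5 e₁ e₂ w x y)) (F a b) =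
      (l * m) ^ 3 * FF (ex τ (chA e₁ e₂ a)) (ex τ (chA e₁ e₂ b)) w x y := by
  rw [F_eqn, eval₂_eqn, ex_ch, ex_ch, FF_ch, ← FF_sc]
  rfl

theorem dgn : S_DGN := by
  intro K _ _ a b V _ L _ s e₁ e₂ w t r l m hl hm hF hFw R hR
  obtain ⟨ε, hε, hR⟩ := hR
  have : Fintype V := Fintype.ofFinite V
  have hB : (fun v => (fun j => s v (scale l m (p5 e₁ e₂ w ![1, t] ![1, r]) j) : Fin 5 → L v)) =
      fun v => scale (s v l) (s v m) (p5 e₁ e₂ (s v w) ![1, s v t] ![1, s v r]) := by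
    funext v
    rw [scale_map, p5_map]
  rw [hB]
  have hl' : ∀ v, s v l ≠ 0 := fun v => (map_ne_zero (s v)).2 hl
  have hm' : ∀ v, s v m ≠ 0 := fun v => (map_ne_zero (s v)).2 hm
  have hFw' : ∀ v, Fw (ex (s v) (chA e₁ e₂ a)) (s v w) ![1, s v t] ![1, s v r] ≠ 0 := by
    intro v
    have h1 : Fw (ex (s v) (chA e₁ e₂ a)) (s v w) ![1, s v t] ![1, s v r] =
        s v (Fw (chA e₁ e₂ a) w ![1, t] ![1, r]) := by
      unfold Fw
      rw [cw_mp, ax_mp]
    rw [h1]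
    exact (map_ne_zero (s v)).2 hFw
  -- the neighbourhood
  let U : ∀ v, Set (Fin 5 → L v) := fun v => {S | S (li e₁) ≠ 0 ∧ S (mi e₂) ≠ 0 ∧
    Fw (ex (s v) (chA e₁ e₂ a)) (gg e₁ e₂ S).1 ![1, (gg e₁ e₂ S).2.1] ![1, (gg e₁ e₂ S).2.2] ≠ 0 ∧
    ‖(gg e₁ e₂ S).1 - s v w‖ < ε ∧ ‖(gg e₁ e₂ S).2.1 - s v t‖ < ε ∧
      ‖(gg e₁ e₂ S).2.2 - s v r‖ < ε}
  have hU : ∀ v, U v ∈ 𝓝 (scale (s v l) (s v m) (p5 e₁ e₂ (s v w) ![1, s v t] ![1, s v r])) := by
    intro v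
    obtain ⟨k1, k2, k3⟩ := gg_scale e₁ e₂ (s v w) (s v t) (s v r) (hl' v) (hm' v)
    set B := scale (s v l) (s v m) (p5 e₁ e₂ (s v w) ![1, s v t] ![1, s v r]) with hBd
    have ci : ∀ i : Fin 5, ContinuousAt (fun S : Fin 5 → L v => S i) B := fun i =>
      (continuous_apply i).continuousAt
    have n1 : B (li e₁) ≠ 0 := by rw [k1]; exact hl' v
    have n2 : B (mi e₂) ≠ 0 := by rw [k2]; exact hm' v
    have cg : ContinuousAt (gg e₁ e₂) B := by
      unfold gg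
      exact ((ci 0).div ((ci _).mul (ci _)) (mul_ne_zero n1 n2)).prodMk
        (((ci _).div (ci _) n1).prodMk ((ci _).div (ci _) n2))
    have cF : Continuous (fun q : L v × L v × L v =>
        Fw (ex (s v) (chA e₁ e₂ a)) q.1 ![1, q.2.1] ![1, q.2.2]) := by
      unfold Fw cw ax q2
      simp only [Matrix.cons_val_zero, Matrix.cons_val_one]
      fun_prop
    have c1 : ContinuousAt (fun S : Fin 5 → L v => (gg e₁ e₂ S).1) B :=
      continuousAt_fst.comp cg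
    have c2 : ContinuousAt (fun S : Fin 5 → L v => (gg e₁ e₂ S).2.1) B :=
      (continuous_fst.comp continuous_snd).continuousAt.comp cg
    have c3 : ContinuousAt (fun S : Fin 5 → L v => (gg e₁ e₂ S).2.2) B :=
      (continuous_snd.comp continuous_snd).continuousAt.comp cg
    have m1 := (ci (li e₁)).eventually_ne n1
    have m2 := (ci (mi e₂)).eventually_ne n2
    have m3 : ∀ᶠ S in 𝓝 B, Fw (ex (s v) (chA e₁ e₂ a)) (gg e₁ e₂ S).1
        ![1, (gg e₁ e₂ S).2.1] ![1, (gg e₁ e₂ S).2.2] ≠ 0 := by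
      have c4 : ContinuousAt (fun S : Fin 5 → L v => Fw (ex (s v) (chA e₁ e₂ a)) (gg e₁ e₂ S).1
        ![1, (gg e₁ e₂ S).2.1] ![1, (gg e₁ e₂ S).2.2]) B := cF.continuousAt.comp cg
      refine c4.eventually_ne ?_
      rw [k3]
      exact hFw' v
    have m4 : ∀ᶠ S in 𝓝 B, ‖(gg e₁ e₂ S).1 - s v w‖ < ε := by
      refine (c1.sub continuousAt_const).norm.eventually_lt continuousAt_const ?_
      show ‖(gg e₁ e₂ B).1 - s v w‖ < ε
      rw [k3, sub_self, norm_zero]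
      exact hε
    have m5 : ∀ᶠ S in 𝓝 B, ‖(gg e₁ e₂ S).2.1 - s v t‖ < ε := by
      refine (c2.sub continuousAt_const).norm.eventually_lt continuousAt_const ?_
      show ‖(gg e₁ e₂ B).2.1 - s v t‖ < ε
      rw [k3, sub_self, norm_zero]
      exact hε
    have m6 : ∀ᶠ S in 𝓝 B, ‖(gg e₁ e₂ S).2.2 - s v r‖ < ε := by
      refine (c3.sub continuousAt_const).norm.eventually_lt continuousAt_const ?_
      show ‖(gg e₁ e₂ B).2.2 - s v r‖ < ε
      rw [k3, sub_self, norm_zero]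
      exact hε
    filter_upwards [m1, m2, m3, m4, m5, m6] with S h1 h2 h3 h4 h5 h6
    exact ⟨h1, h2, h3, h4, h5, h6⟩
  refine ⟨Set.pi Set.univ U, set_pi_mem_nhds Set.finite_univ (fun v _ => hU v), ?_⟩
  intro S hS hS0
  have hSv : ∀ v, S v ∈ U v := fun v => hS v (Set.mem_univ v)
  have hsc : ∀ v, scale (S v (li e₁)) (S v (mi e₂)) (p5 e₁ e₂ (gg e₁ e₂ (S v)).1
      ![1, (gg e₁ e₂ (S v)).2.1] ![1, (gg e₁ e₂ (S v)).2.2]) = S v := fun v =>
    scale_gg e₁ e₂ (hSv v).1 (hSv v).2.1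
  have hq : OnL s (chA e₁ e₂ a) (chA e₁ e₂ b) (fun v => gg e₁ e₂ (S v)) := by
    intro v
    refine ⟨?_, (hSv v).2.2.1⟩
    have h1 := hS0 v
    rw [← hsc v, eval₂_F_scale] at h1
    exact (mul_eq_zero.1 h1).resolve_left
      (pow_ne_zero 3 (mul_ne_zero (hSv v).1 (hSv v).2.1))
  have hz := hR (fun v => gg e₁ e₂ (S v)) hq (fun v => (hSv v).2.2.2)
  have hcl : (fun v => gg e₁ e₂ (S v)) ∈ closure {q : ∀ v, L v × L v × L v |
      ∃ z : K × K × K, R z ∧ q = fun v => (s v z.1, s v z.2.1, s v z.2.2)} := by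
    rw [Metric.mem_closure_iff]
    intro η hη
    obtain ⟨z, hz1, hz2⟩ := hz η hη
    refine ⟨_, ⟨z, hz1, rfl⟩, ?_⟩
    rw [dist_pi_lt_iff hη]
    intro v
    obtain ⟨h1, h2, h3⟩ := hz2 v
    rw [dist_comm, Prod.dist_eq, max_lt_iff, Prod.dist_eq, max_lt_iff]
    simp only [dist_eq_norm]
    exact ⟨h1, h2, h3⟩
  have hΦ : Continuous (fun (q : ∀ v, L v × L v × L v) v => scale (S v (li e₁)) (S v (mi e₂))
      (p5 e₁ e₂ (q v).1 ![1, (q v).2.1] ![1, (q v).2.2])) := by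
    refine continuous_pi fun v => ?_
    have c0 : Continuous (fun q : ∀ v, L v × L v × L v => q v) := continuous_apply v
    refine continuous_pi fun j => ?_
    cases e₁ <;> cases e₂ <;>
    · fin_cases j <;> simp [scale, p5, Pool.Agent.H66.TK.sw] <;> fun_prop
  have h5 := map_mem_closure (t := {S | ∃ z : K × K × K, R z ∧
          ∀ v, S v ∈ coords (s v) (p5 e₁ e₂ z.1 ![1, z.2.1] ![1, z.2.2])}) hΦ hcl (by
    rintro q ⟨z, hz1, rfl⟩
    refine ⟨z, hz1, fun v => ⟨S v (li e₁), S v (mi e₂), (hSv v).1, (hSv v).2.1, ?_⟩⟩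
    rw [p5_map])
  have e5 : (fun v => scale (S v (li e₁)) (S v (mi e₂)) (p5 e₁ e₂ (gg e₁ e₂ (S v)).1
      ![1, (gg e₁ e₂ (S v)).2.1] ![1, (gg e₁ e₂ (S v)).2.2])) = S := funext hsc
  rw [← e5]
  exact h5

end Pool.Agent.H66.ZK
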