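import Pool.Agent.H66.ZK.Stm2

/-!
# DRL: the real place separately (project ZK, helper37)
-/

set_option autoImplicit false

open Pool.Agent.Y720.MZ Pool.Agent.Q35.TT Pool.Agent.Q149.TT Pool.Agent.Q35.ZC Pool.Agent.H66.TK

namespace Pool.Agent.H66.ZK

section

variable {ι : Type} {p : ι → ℕ} [∀ i, Fact (p i).Prime]

/-- the real point and the `p`-adic points together -/
def joinR (S : (Fin 5 → ℝ) × (∀ i, Fin 5 → ℚ_[p i])) : ∀ v : Option ι, Fin 5 → Lv p v
  | none => S.1
  | some i => S.2 i

/-- the real point and the `p`-adic points separately -/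
def splitR (T : ∀ v : Option ι, Fin 5 → Lv p v) : (Fin 5 → ℝ) × (∀ i, Fin 5 → ℚ_[p i]) :=
  (T none, fun i => T (some i))

theorem joinR_continuous : Continuous (joinR (p := p)) := by
  refine continuous_pi ?_
  rintro (_ | i)
  · exact continuous_fst
  · exact (continuous_apply i).comp continuous_snd

theorem splitR_continuous : Continuous (splitR (p := p)) := by
  refine Continuous.prodMk ?_ ?_
  · exact continuous_apply (A := fun v : Option ι => Fin 5 → Lv p v) none
  · exact continuous_pi fun i => continuous_apply (A := fun v : Option ι => Fin 5 → Lv p v) (some i)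

end

theorem drl : S_DRL := by
  intro K _ _ f R P ι _ p _ σ τ h
  obtain ⟨U, hU, h⟩ := h
  refine ⟨joinR ⁻¹' U, ?_, ?_⟩
  · refine joinR_continuous.continuousAt.preimage_mem_nhds ?_
    have e : joinR (p := p) ((fun j => τ (P j) : Fin 5 → ℝ),
        fun i => (fun j => σ i (P j) : Fin 5 → ℚ_[p i])) =
        fun v => (fun j => sv σ τ v (P j) : Fin 5 → Lv p v) := by
      funext v
      rcases v with _ | i <;> rfl
    rw [e]
    exact hU
  · intro S hS h1 h2
    have h3 := h (joinR S) hS (by
      rintro (_ | i)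
      · exact h1
      · exact h2 i)
    have h4 := map_mem_closure (t := {S : (Fin 5 → ℝ) × (∀ i, Fin 5 → ℚ_[p i]) | ∃ Q ∈ R,
      S.1 ∈ coords τ Q ∧ ∀ i, S.2 i ∈ coords (σ i) Q}) splitR_continuous h3 (by
        rintro T ⟨Q, hQ, hT⟩
        exact ⟨Q, hQ, hT none, fun i => hT (some i)⟩)
    exact h4

end Pool.Agent.H66.ZK
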